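import Mathlib

/-!
# MP_588399_co: connecting against touching for three, four and six colours
-/

set_option autoImplicit false

namespace Pool.Agent.Results.MP_588399_co.FourAndSixColours

open Finset

/-- The spanning subgraph of `K_n` of the edges with colour in `S`. -/
def GS {n r : ℕ} (c : Sym2 (Fin n) → Fin r) (S : Finset (Fin r)) : SimpleGraph (Fin n) where
  Adj u v := u ≠ v ∧ c s(u, v) ∈ S
  symm := ⟨fun u v h => ⟨h.1.symm, by rw [Sym2.eq_swap]; exact h.2⟩⟩
  loopless := ⟨fun _ h => h.1 rfl⟩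

/-- Every `r`-edge colouring of `K_n` has at most `s` colours with a component of order `≥ m`. -/
def Conn (n r s m : ℕ) : Prop :=
  ∀ c : Sym2 (Fin n) → Fin r, ∃ S : Finset (Fin r), S.card ≤ s ∧
    ∃ K : (GS c S).ConnectedComponent, m ≤ K.supp.ncard

/-- Every `r`-edge colouring of `K_n` has at most `s` colours touching at least `m` vertices. -/
def Touch (n r s m : ℕ) : Prop :=
  ∀ c : Sym2 (Fin n) → Fin r, ∃ S : Finset (Fin r), S.card ≤ s ∧
    m ≤ {v : Fin n | ∃ w, (GS c S).Adj v w}.ncard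

/-- `f(n,r,s)` -/
noncomputable def f (n r s : ℕ) : ℕ := sSup {m | Conn n r s m}

/-- `g(n,r,s)` -/
noncomputable def g (n r s : ℕ) : ℕ := sSup {m | Touch n r s m}

theorem ncard_le {n : ℕ} (A : Set (Fin n)) : A.ncard ≤ n := by
  have := Set.ncard_le_ncard (Set.subset_univ A)
  rwa [Set.ncard_univ, Nat.card_eq_fintype_card, Fintype.card_fin] at this

theorem conn_bdd (n r s : ℕ) (hr : 0 < r) : n ∈ upperBounds {m | Conn n r s m} := by
  intro m hm
  obtain ⟨S, -, K, hK⟩ := hm (fun _ => ⟨0, hr⟩)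
  exact hK.trans (ncard_le _)

theorem touch_bdd (n r s : ℕ) (hr : 0 < r) : n ∈ upperBounds {m | Touch n r s m} := by
  intro m hm
  obtain ⟨S, -, hK⟩ := hm (fun _ => ⟨0, hr⟩)
  exact hK.trans (ncard_le _)

theorem touch_of (n r s m : ℕ) (hn : 2 ≤ n) (hmn : m ≤ n) (hrs : s ≤ r)
    (h : m * r.choose s ≤ n * (r.choose s - (r - s - 1).choose s)) : Touch n r s m := by
  classical
  intro c
  let L : Fin n → Finset (Fin r) := fun v => (univ.erase v).image fun w => c s(v, w)
  by_cases hL : ∃ v, (L v).card ≤ s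
  · obtain ⟨v, hv⟩ := hL
    refine ⟨L v, hv, ?_⟩
    have hall : {x : Fin n | ∃ w, (GS c (L v)).Adj x w} = Set.univ := by
      ext x
      simp only [Set.mem_setOf_eq, Set.mem_univ, iff_true]
      by_cases hx : x = v
      · subst hx
        haveI : Nontrivial (Fin n) := Fin.nontrivial_iff_two_le.2 hn
        obtain ⟨w, hw⟩ := exists_ne x
        exact ⟨w, hw.symm, mem_image.2 ⟨w, mem_erase.2 ⟨hw, mem_univ _⟩, rfl⟩⟩
      · exact ⟨v, hx, mem_image.2 ⟨x, mem_erase.2 ⟨hx, mem_univ _⟩, by rw [Sym2.eq_swap]⟩⟩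
    rw [hall, Set.ncard_univ, Nat.card_eq_fintype_card, Fintype.card_fin]
    exact hmn
  · push Not at hL
    by_contra hcon
    push Not at hcon
    let T : Finset (Fin r) → Finset (Fin n) := fun S => univ.filter fun v => ¬ Disjoint (L v) S
    have hT : ∀ S, {v : Fin n | ∃ w, (GS c S).Adj v w} = (T S : Set (Fin n)) := by
      intro S
      ext v
      simp only [T, Set.mem_setOf_eq, coe_filter, mem_univ, true_and, Finset.not_disjoint_iff]
      constructor
      · rintro ⟨w, hw, hc⟩
        exact ⟨_, mem_image.2 ⟨w, mem_erase.2 ⟨fun e => hw e.symm, mem_univ _⟩, rfl⟩, hc⟩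
      · rintro ⟨i, hi, hiS⟩
        obtain ⟨w, hw, rfl⟩ := mem_image.1 hi
        exact ⟨w, fun e => (mem_erase.1 hw).1 e.symm, hiS⟩
    have hlt : ∀ S ∈ powersetCard s (univ : Finset (Fin r)), (T S).card + 1 ≤ m := by
      intro S hS
      have := hcon S (mem_powersetCard.1 hS).2.le
      rw [hT, Set.ncard_coe_finset] at this
      exact this
    have hPC : (powersetCard s (univ : Finset (Fin r))).card = r.choose s := by
      rw [card_powersetCard, card_univ, Fintype.card_fin]
    have h1 : ∑ S ∈ powersetCard s (univ : Finset (Fin r)), ((T S).card + 1) ≤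
        m * r.choose s := by
      calc _ ≤ ∑ S ∈ powersetCard s (univ : Finset (Fin r)), m := sum_le_sum hlt
        _ = _ := by rw [sum_const, hPC, smul_eq_mul, mul_comm]
    rw [sum_add_distrib, sum_const, hPC, smul_eq_mul, mul_one] at h1
    have h2 : ∑ S ∈ powersetCard s (univ : Finset (Fin r)), (T S).card =
        ∑ v : Fin n, ((powersetCard s (univ : Finset (Fin r))).filter
          fun S => ¬ Disjoint (L v) S).card := by
      simp only [T, card_filter]
      exact sum_comm
    have h3 : ∀ v : Fin n, r.choose s - (r - s - 1).choose s ≤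
        ((powersetCard s (univ : Finset (Fin r))).filter fun S => ¬ Disjoint (L v) S).card := by
      intro v
      have e := card_filter_add_card_filter_not (s := powersetCard s (univ : Finset (Fin r)))
        (fun S => Disjoint (L v) S)
      rw [hPC] at e
      have hsub : ((powersetCard s (univ : Finset (Fin r))).filter
          fun S => Disjoint (L v) S) ⊆ powersetCard s (L v)ᶜ := by
        intro S hS
        rw [mem_filter, mem_powersetCard] at hS
        rw [mem_powersetCard]
        refine ⟨fun i hi => ?_, hS.1.2⟩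
        rw [mem_compl]
        exact fun hiL => (Finset.disjoint_left.1 hS.2) hiL hi
      have hc := card_le_card hsub
      rw [card_powersetCard, card_compl, Fintype.card_fin] at hc
      have hL' := hL v
      have hmono : (r - (L v).card).choose s ≤ (r - s - 1).choose s :=
        Nat.choose_le_choose s (by omega)
      omega
    have h4 : n * (r.choose s - (r - s - 1).choose s) ≤
        ∑ S ∈ powersetCard s (univ : Finset (Fin r)), (T S).card := by
      rw [h2]
      calc n * (r.choose s - (r - s - 1).choose s)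
          = ∑ v : Fin n, (r.choose s - (r - s - 1).choose s) := by
            rw [sum_const, card_univ, Fintype.card_fin, smul_eq_mul]
        _ ≤ _ := sum_le_sum fun v _ => h3 v
    have h5 : 0 < r.choose s := Nat.choose_pos hrs
    omega

theorem le_g (n r s m : ℕ) (hr : 0 < r) (h : Touch n r s m) : m ≤ g n r s :=
  le_csSup ⟨n, touch_bdd n r s hr⟩ h

theorem f_le_of {Λ : Type} [Fintype Λ] [DecidableEq Λ] (n r s t k : ℕ) (hk : 0 < k)
    (col : Fin k → Fin k → Fin r) (hsymm : ∀ a b, col a b = col b a)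
    (hlam : ∀ S : Finset (Fin r), S.card ≤ s → ∃ l : Fin k → Λ,
      (∀ a b, col a b ∈ S → l a = l b) ∧ ∀ x, (univ.filter fun a => l a = x).card ≤ t) :
    f n r s ≤ (n / k + 1) * t := by
  classical
  refine csSup_le' ?_
  intro m hm
  let π : Fin n → Fin k := fun v => ⟨v.val % k, Nat.mod_lt _ hk⟩
  let c : Sym2 (Fin n) → Fin r :=
    Sym2.lift ⟨fun u v => col (π u) (π v), fun u v => hsymm _ _⟩
  obtain ⟨S, hS, K, hK⟩ := hm c
  obtain ⟨l, hl, hfib⟩ := hlam S hS
  refine hK.trans ?_
  induction K using SimpleGraph.ConnectedComponent.ind with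
  | h v0 =>
    have hreach : ∀ u v : Fin n, (GS c S).Reachable u v → l (π u) = l (π v) := by
      rintro u v ⟨p⟩
      induction p with
      | nil => rfl
      | cons hadj p ih => exact (hl _ _ hadj.2).trans ih
    have hsub : ((GS c S).connectedComponentMk v0).supp ⊆
        ((univ.filter fun v : Fin n => l (π v) = l (π v0) : Finset (Fin n)) : Set (Fin n)) := by
      intro v hv
      rw [SimpleGraph.ConnectedComponent.mem_supp_iff, SimpleGraph.ConnectedComponent.eq] at hv
      simp only [coe_filter, mem_univ, true_and, Set.mem_setOf_eq]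
      exact hreach _ _ hv
    refine (Set.ncard_le_ncard hsub (finite_toSet _)).trans ?_
    rw [Set.ncard_coe_finset]
    refine (card_le_mul_card_image_of_maps_to (f := π)
      (t := univ.filter fun a => l a = l (π v0)) ?_ (n / k + 1) ?_).trans ?_
    · intro v hv
      rw [mem_filter] at hv ⊢
      exact ⟨mem_univ _, hv.2⟩
    · intro b _
      have : ((univ.filter fun v : Fin n => l (π v) = l (π v0)).filter
          fun v => π v = b).card ≤ (range (n / k + 1)).card := by
        refine card_le_card_of_injOn (fun v => v.val / k) ?_ ?_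
        · intro v _
          rw [mem_coe, mem_range]
          exact Nat.lt_succ_of_le (Nat.div_le_div_right v.isLt.le)
        · intro u hu v hv e
          simp only [coe_filter, mem_filter, mem_univ, true_and, Set.mem_setOf_eq] at hu hv
          have e1 : u.val % k = v.val % k := by
            have := hu.2.trans hv.2.symm
            exact congrArg Fin.val this
          have e2 : u.val / k = v.val / k := e
          apply Fin.ext
          rw [← Nat.div_add_mod u.val k, ← Nat.div_add_mod v.val k, e1, e2]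
      rwa [card_range] at this
    · exact Nat.mul_le_mul_left _ (hfib _)

theorem full (n r s : ℕ) (hr : 0 < r) (hn : 2 ≤ n) (S0 : Finset (Fin r)) (h1 : S0.card ≤ s)
    (h2 : S0ᶜ.card ≤ s) (hrs : s ≤ r) (h0 : (r - s - 1).choose s = 0) :
    f n r s = g n r s := by
  haveI : Nonempty (Fin n) := ⟨⟨0, by omega⟩⟩
  have hf : f n r s = n := by
    refine le_antisymm (csSup_le' (conn_bdd n r s hr)) (le_csSup ⟨n, conn_bdd n r s hr⟩ ?_)
    intro c
    have key : ∀ S : Finset (Fin r), (GS c S).Connected →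
        ∃ K : (GS c S).ConnectedComponent, n ≤ K.supp.ncard := by
      intro S hS
      refine ⟨(GS c S).connectedComponentMk (Classical.arbitrary _), ?_⟩
      have : ((GS c S).connectedComponentMk (Classical.arbitrary (Fin n))).supp = Set.univ := by
        ext v
        simp only [SimpleGraph.ConnectedComponent.mem_supp_iff, Set.mem_univ, iff_true,
          SimpleGraph.ConnectedComponent.eq]
        exact hS.preconnected _ _
      rw [this, Set.ncard_univ, Nat.card_eq_fintype_card, Fintype.card_fin]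
    have hc : (GS c S0)ᶜ = GS c S0ᶜ := by
      ext u v
      simp only [SimpleGraph.compl_adj, GS, mem_compl]
      tauto
    rcases SimpleGraph.connected_or_connected_compl (GS c S0) with h | h
    · exact ⟨S0, h1, key S0 h⟩
    · rw [hc] at h
      exact ⟨S0ᶜ, h2, key _ h⟩
  have hg : g n r s = n := by
    refine le_antisymm (csSup_le' (touch_bdd n r s hr)) (le_g n r s n hr ?_)
    refine touch_of n r s n hn le_rfl hrs ?_
    rw [h0, Nat.sub_zero]
  rw [hf, hg]

/-- the parallel classes of the affine plane of order `q` -/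
def lam (q : ℕ) [NeZero q] (i : Fin (q + 1)) (a : Fin (q * q)) : Fin q :=
  if i.val = q then Fin.ofNat q (a.val / q) else Fin.ofNat q (a.val % q + i.val * (a.val / q))

/-- the colour of the line through two points -/
def line (q : ℕ) [NeZero q] (a b : Fin (q * q)) : Fin (q + 1) :=
  ((List.finRange (q + 1)).find? fun i => decide (lam q i a = lam q i b)).getD 0

theorem plane (q : ℕ) [NeZero q] (n : ℕ) (h1 : ∀ a b, line q a b = line q b a)
    (h2 : ∀ a b, lam q (line q a b) a = lam q (line q a b) b)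
    (h3 : ∀ i x, (univ.filter fun a => lam q i a = x).card ≤ q) :
    f n (q + 1) 1 ≤ (n / (q * q) + 1) * q := by
  refine f_le_of (Λ := Fin q) n (q + 1) 1 q (q * q)
    (Nat.mul_pos (Nat.pos_of_ne_zero (NeZero.ne q)) (Nat.pos_of_ne_zero (NeZero.ne q)))
    (line q) h1 ?_
  intro S hS
  obtain ⟨i, hi⟩ := card_le_one_iff_subset_singleton.1 hS
  refine ⟨lam q i, fun a b hab => ?_, h3 i⟩
  have := mem_singleton.1 (hi hab)
  rw [← this]
  exact h2 a b

theorem f3 (n : ℕ) : f n 3 1 ≤ (n / 4 + 1) * 2 :=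
  plane 2 n (by decide +kernel) (by decide +kernel) (by decide +kernel)

theorem f4 (n : ℕ) : f n 4 1 ≤ (n / 9 + 1) * 3 :=
  plane 3 n (by decide +kernel) (by decide +kernel) (by decide +kernel)

theorem f6 (n : ℕ) : f n 6 1 ≤ (n / 25 + 1) * 5 :=
  plane 5 n (by decide +kernel) (by decide +kernel) (by decide +kernel)

/-- the six edges of `K_4`; a vertex gets the colour of one of its edges -/
def edge : Fin 4 → Fin 4 → Fin 6 :=
  ![![0, 0, 1, 2], ![0, 0, 3, 4], ![1, 3, 1, 5], ![2, 4, 5, 2]]

theorem f62 (n : ℕ) : f n 6 2 ≤ (n / 4 + 1) * 3 := by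
  refine f_le_of (Λ := Bool) n 6 2 3 4 (by norm_num) edge (by decide +kernel) ?_
  have key : ∀ S : Finset (Fin 6), S.card ≤ 2 → ∃ x y : Fin 4, ∀ a b, edge a b ∈ S →
      decide (a = x ∨ a = y) = decide (b = x ∨ b = y) := by decide +kernel
  have fib : ∀ x y : Fin 4, ∀ z : Bool,
      (univ.filter fun a : Fin 4 => decide (a = x ∨ a = y) = z).card ≤ 3 := by decide +kernel
  intro S hS
  obtain ⟨x, y, h⟩ := key S hS
  exact ⟨fun a => decide (a = x ∨ a = y), h, fib x y⟩

/-- a 7-colouring of the edges of `K_7` (three edges of every colour) -/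
def seven : Fin 7 → Fin 7 → Fin 7 :=
  ![![3, 3, 5, 4, 0, 1, 6],
    ![3, 0, 0, 6, 5, 2, 4],
    ![5, 0, 1, 1, 3, 4, 2],
    ![4, 6, 1, 2, 2, 5, 3],
    ![0, 5, 3, 2, 6, 6, 1],
    ![1, 2, 4, 5, 6, 0, 0],
    ![6, 4, 2, 3, 1, 0, 6]]

/-- a union of components for every two colours, as a binary number -/
def mask : Fin 7 → Fin 7 → ℕ :=
  ![![23, 113, 25, 23, 25, 23, 113],
    ![113, 35, 35, 35, 45, 45, 113],
    ![25, 35, 35, 35, 25, 69, 69],
    ![23, 35, 35, 23, 75, 23, 75],
    ![25, 45, 25, 75, 75, 45, 75],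
    ![23, 45, 69, 23, 45, 23, 69],
    ![113, 113, 69, 75, 75, 69, 75]]

theorem f72 (n : ℕ) : f n 7 2 ≤ (n / 7 + 1) * 4 := by
  refine f_le_of (Λ := Bool) n 7 2 4 7 (by norm_num) seven (by decide +kernel) ?_
  have sub2 : ∀ S : Finset (Fin 7), S.card ≤ 2 → ∃ i j : Fin 7, S ⊆ {i, j} := by
    decide +kernel
  have key : ∀ i j a b : Fin 7, (seven a b = i ∨ seven a b = j) →
      (mask i j).testBit a.val = (mask i j).testBit b.val := by decide +kernel
  have fib : ∀ i j : Fin 7, ∀ z : Bool,
      (univ.filter fun a : Fin 7 => (mask i j).testBit a.val = z).card ≤ 4 := by decide +kernel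
  intro S hS
  obtain ⟨i, j, h⟩ := sub2 S hS
  refine ⟨fun a => (mask i j).testBit a.val, fun a b hab => key i j a b ?_, fib i j⟩
  have h' := h hab
  rw [mem_insert, mem_singleton] at h'
  exact h'

theorem f_succ (n r s : ℕ) (hr : 0 < r) : f n (r + 1) s ≤ f n r s := by
  classical
  refine csSup_le' ?_
  intro m hm
  refine le_csSup ⟨n, conn_bdd n r s hr⟩ ?_
  intro c
  obtain ⟨S, hS, K, hK⟩ := hm (fun e => (c e).castSucc)
  have hG : GS (fun e => (c e).castSucc) S =
      GS c (univ.filter fun i : Fin r => i.castSucc ∈ S) := by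
    ext u v
    simp [GS]
  refine ⟨univ.filter fun i : Fin r => i.castSucc ∈ S, ?_, ?_⟩
  · refine le_trans ?_ hS
    exact card_le_card_of_injOn (fun i => i.castSucc) (fun i hi => by simpa using hi)
      (fun a _ b _ e => Fin.castSucc_injective _ e)
  · rw [← hG]
    exact ⟨K, hK⟩

theorem g_ge (n r s m : ℕ) (hr : 0 < r) (hn : 2 ≤ n) (hmn : m ≤ n) (hrs : s ≤ r)
    (h : m * r.choose s ≤ n * (r.choose s - (r - s - 1).choose s)) : m ≤ g n r s :=
  le_g n r s m hr (touch_of n r s m hn hmn hrs h)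

/-- For `n ≥ 1000` the smallest `s` with `f(n,r,s) = g(n,r,s)` is `2`, `2`, `3` for
`r = 3, 4, 6`, and `f < g` for `r = 5`, `s = 1` and for `7 ≤ r ≤ 9`, `s ≤ 2`. -/
theorem result (n : ℕ) (hn : 1000 ≤ n) :
    IsLeast {s : ℕ | 1 ≤ s ∧ f n 3 s = g n 3 s} 2 ∧
    IsLeast {s : ℕ | 1 ≤ s ∧ f n 4 s = g n 4 s} 2 ∧
    IsLeast {s : ℕ | 1 ≤ s ∧ f n 6 s = g n 6 s} 3 ∧
    f n 5 1 < g n 5 1 ∧
    ∀ r s : ℕ, 7 ≤ r → r ≤ 9 → 1 ≤ s → s ≤ 2 → f n r s < g n r s := by
  have c31 : Nat.choose 3 1 = 3 := by decide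
  have c41 : Nat.choose 4 1 = 4 := by decide
  have c51 : Nat.choose 5 1 = 5 := by decide
  have c61 : Nat.choose 6 1 = 6 := by decide
  have c71 : Nat.choose 7 1 = 7 := by decide
  have c81 : Nat.choose 8 1 = 8 := by decide
  have c91 : Nat.choose 9 1 = 9 := by decide
  have c62 : Nat.choose 6 2 = 15 := by decide
  have c72 : Nat.choose 7 2 = 21 := by decide
  have c82 : Nat.choose 8 2 = 28 := by decide
  have c92 : Nat.choose 9 2 = 36 := by decide
  have g3 : 2 * n / 3 ≤ g n 3 1 := g_ge n 3 1 _ (by norm_num) (by omega) (by omega) (by norm_num)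
    (by rw [c31, show (3 - 1 - 1 : ℕ).choose 1 = 1 by decide]; omega)
  have g4 : n / 2 ≤ g n 4 1 := g_ge n 4 1 _ (by norm_num) (by omega) (by omega) (by norm_num)
    (by rw [c41, show (4 - 1 - 1 : ℕ).choose 1 = 2 by decide]; omega)
  have g5 : 2 * n / 5 ≤ g n 5 1 := g_ge n 5 1 _ (by norm_num) (by omega) (by omega) (by norm_num)
    (by rw [c51, show (5 - 1 - 1 : ℕ).choose 1 = 3 by decide]; omega)
  have g6 : n / 3 ≤ g n 6 1 := g_ge n 6 1 _ (by norm_num) (by omega) (by omega) (by norm_num)
    (by rw [c61, show (6 - 1 - 1 : ℕ).choose 1 = 4 by decide]; omega)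
  have g7 : 2 * n / 7 ≤ g n 7 1 := g_ge n 7 1 _ (by norm_num) (by omega) (by omega) (by norm_num)
    (by rw [c71, show (7 - 1 - 1 : ℕ).choose 1 = 5 by decide]; omega)
  have g8 : n / 4 ≤ g n 8 1 := g_ge n 8 1 _ (by norm_num) (by omega) (by omega) (by norm_num)
    (by rw [c81, show (8 - 1 - 1 : ℕ).choose 1 = 6 by decide]; omega)
  have g9 : 2 * n / 9 ≤ g n 9 1 := g_ge n 9 1 _ (by norm_num) (by omega) (by omega) (by norm_num)
    (by rw [c91, show (9 - 1 - 1 : ℕ).choose 1 = 7 by decide]; omega)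
  have g62 : 4 * n / 5 ≤ g n 6 2 := g_ge n 6 2 _ (by norm_num) (by omega) (by omega)
    (by norm_num) (by rw [c62, show (6 - 2 - 1 : ℕ).choose 2 = 3 by decide]; omega)
  have g72 : 5 * n / 7 ≤ g n 7 2 := g_ge n 7 2 _ (by norm_num) (by omega) (by omega)
    (by norm_num) (by rw [c72, show (7 - 2 - 1 : ℕ).choose 2 = 6 by decide]; omega)
  have g82 : 9 * n / 14 ≤ g n 8 2 := g_ge n 8 2 _ (by norm_num) (by omega) (by omega)
    (by norm_num) (by rw [c82, show (8 - 2 - 1 : ℕ).choose 2 = 10 by decide]; omega)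
  have g92 : 7 * n / 12 ≤ g n 9 2 := g_ge n 9 2 _ (by norm_num) (by omega) (by omega)
    (by norm_num) (by rw [c92, show (9 - 2 - 1 : ℕ).choose 2 = 15 by decide]; omega)
  have e3 := f3 n
  have e4 := f4 n
  have e5 : f n 5 1 ≤ f n 4 1 := f_succ n 4 1 (by norm_num)
  have e6 := f6 n
  have e7 : f n 7 1 ≤ f n 6 1 := f_succ n 6 1 (by norm_num)
  have e8 : f n 8 1 ≤ f n 7 1 := f_succ n 7 1 (by norm_num)
  have e9 : f n 9 1 ≤ f n 8 1 := f_succ n 8 1 (by norm_num)
  have e62 := f62 n
  have e72 := f72 n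
  have e82 : f n 8 2 ≤ f n 7 2 := f_succ n 7 2 (by norm_num)
  have e92 : f n 9 2 ≤ f n 8 2 := f_succ n 8 2 (by norm_num)
  refine ⟨⟨⟨by norm_num, ?_⟩, ?_⟩, ⟨⟨by norm_num, ?_⟩, ?_⟩, ⟨⟨by norm_num, ?_⟩, ?_⟩, ?_, ?_⟩
  · exact full n 3 2 (by norm_num) (by omega) {0, 1} (by decide) (by decide) (by norm_num)
      (by decide)
  · rintro s ⟨h1, h2⟩
    by_contra hs
    have : s = 1 := by omega
    subst this
    omega
  · exact full n 4 2 (by norm_num) (by omega) {0, 1} (by decide) (by decide) (by norm_num)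
      (by decide)
  · rintro s ⟨h1, h2⟩
    by_contra hs
    have : s = 1 := by omega
    subst this
    omega
  · exact full n 6 3 (by norm_num) (by omega) {0, 1, 2} (by decide) (by decide) (by norm_num)
      (by decide)
  · rintro s ⟨h1, h2⟩
    by_contra hs
    have : s = 1 ∨ s = 2 := by omega
    rcases this with rfl | rfl <;> omega
  · omega
  · intro r s hr7 hr9 hs1 hs2
    have hr : r = 7 ∨ r = 8 ∨ r = 9 := by omega
    have hs : s = 1 ∨ s = 2 := by omega
    rcases hr with rfl | rfl | rfl <;> rcases hs with rfl | rfl <;> omega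

end Pool.Agent.Results.MP_588399_co.FourAndSixColours
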